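import Mathlib

/-!
# Evolution algebras with condition `P`: definitions

An algebra is a complex vector space `V` with a bilinear product `m : V → V → V`.
-/

set_option autoImplicit false

namespace Pool.H4.EVO

section
variable {V : Type} [AddCommGroup V] [Module ℂ V] (m : V → V → V)

/-- The product `m` is bilinear. -/
def IsAlgebra : Prop :=
  (∀ x y z, m (x + y) z = m x z + m y z ∧ m z (x + y) = m z x + m z y) ∧
    ∀ (t : ℂ) (x y : V), m (t • x) y = t • m x y ∧ m x (t • y) = t • m x y

/-- `b` is a natural basis: a basis with `b_i b_j = 0` for `i ≠ j`. -/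
def IsNatural {n : ℕ} (b : Fin n → V) : Prop :=
  (∀ v, ∃! c : Fin n → ℂ, v = ∑ i, c i • b i) ∧ ∀ i j, i ≠ j → m (b i) (b j) = 0

/-- The algebra is an `n`-dimensional evolution algebra. -/
def IsEvolution (n : ℕ) : Prop := IsAlgebra m ∧ ∃ b : Fin n → V, IsNatural m b

/-- `F` is a subalgebra: a linear subspace closed under the product. -/
def IsSubalgebra (F : Set V) : Prop :=
  0 ∈ F ∧ (∀ x ∈ F, ∀ y ∈ F, x + y ∈ F ∧ m x y ∈ F) ∧ ∀ (t : ℂ), ∀ x ∈ F, t • x ∈ F

/-- Condition `P`: every subalgebra is an evolution subalgebra, that is, it is spanned by a part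
`(b i)_{i ∈ s}` of a natural basis `b` of the whole algebra. -/
def ConditionP : Prop :=
  ∀ F, IsSubalgebra m F → ∃ (n : ℕ) (b : Fin n → V) (s : Set (Fin n)), IsNatural m b ∧
    F = {v | ∃ c : Fin n → ℂ, (∀ i, i ∉ s → c i = 0) ∧ v = ∑ i, c i • b i}

/-- `Power m k x`: the element `x` belongs to `E^k`, where `E^1 = E` and `E^k` is the sum of the
`E^i E^j` with `i + j = k`. -/
inductive Power : ℕ → V → Prop
  | one (x : V) : Power 1 x
  | mul (i j : ℕ) (x y : V) : Power i x → Power j y → Power (i + j) (m x y)
  | add (k : ℕ) (x y : V) : Power k x → Power k y → Power k (x + y)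

/-- The numbers `k ≥ 1` with `E^k = 0`. -/
def zeroPowers : Set ℕ := {k | 1 ≤ k ∧ ∀ x, Power m k x → x = 0}

/-- The algebra is nilpotent. -/
def IsNilpotent : Prop := (zeroPowers m).Nonempty

/-- The index of nilpotency. -/
noncomputable def index : ℕ := sInf (zeroPowers m)

/-- The class `ZN^s`: the `s`-dimensional nilpotent evolution algebras whose index of nilpotency is
the largest possible among `s`-dimensional nilpotent evolution algebras. -/
def MemZN (s : ℕ) : Prop :=
  IsEvolution m s ∧ IsNilpotent m ∧ ∀ (W : Type) [AddCommGroup W] [Module ℂ W] (u : W → W → W),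
    IsEvolution u s → IsNilpotent u → index u ≤ index m

variable {W : Type} [AddCommGroup W] [Module ℂ W] (u : W → W → W)

/-- The algebras are isomorphic. -/
def Iso : Prop :=
  ∃ f : V → W, f.Bijective ∧ (∀ x y, f (x + y) = f x + f y ∧ f (m x y) = u (f x) (f y)) ∧
    ∀ (t : ℂ) (x : V), f (t • x) = t • f x

/-- The product of the direct sum of two algebras. -/
def dsum {A B : Type} (m : A → A → A) (u : B → B → B) (x y : A × B) : A × B :=
  (m x.1 y.1, u x.2 y.2)

/-- The product of `ES_1`, the complex numbers. -/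
noncomputable def one (x y : ℂ) : ℂ := x * y

/-- The zero product on `ℂ^k`. -/
def zero (k : ℕ) (_ _ : Fin k → ℂ) (_ : Fin k) : ℂ := 0

/-- The algebra is isomorphic to the direct sum of `ES_1` and of `ℂ^(n-1)` with zero product. -/
def First (n : ℕ) : Prop := Iso m (dsum one (zero (n - 1)))

/-- The algebra is isomorphic to the direct sum of `ES_1`, of `u ∈ ZN^s` with `2 ≤ s ≤ n - 1`, and
of `ℂ^(n-s-1)` with zero product. -/
def Second (n s : ℕ) : Prop :=
  2 ≤ s ∧ s ≤ n - 1 ∧ MemZN u s ∧ Iso m (dsum one (dsum u (zero (n - s - 1))))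

end

/-- Every `n`-dimensional non-nilpotent complex evolution algebra with condition `P` is in the
list. -/
def Complete (n : ℕ) : Prop :=
  ∀ (V : Type) [AddCommGroup V] [Module ℂ V] (m : V → V → V), IsEvolution m n →
    ¬ IsNilpotent m → ConditionP m → First m n ∨
      ∃ (s : ℕ) (W : Type) (_ : AddCommGroup W) (_ : Module ℂ W) (u : W → W → W), Second m u n s

/-- The algebras in the list are pairwise non-isomorphic: an algebra isomorphic to one of the
second kind is not isomorphic to that of the first kind, and `s` is determined, and `u` is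
determined up to isomorphism. -/
def Distinct (n : ℕ) : Prop :=
  ∀ (V W X : Type) [AddCommGroup V] [Module ℂ V] [AddCommGroup W] [Module ℂ W] [AddCommGroup X]
    [Module ℂ X] (m : V → V → V) (u : W → W → W) (v : X → X → X) (s t : ℕ), Second m u n s →
    ¬ First m n ∧ (Second m v n t → s = t ∧ Iso u v)

end Pool.H4.EVO
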