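import Pool.Agent.H4.EVO.Defs
import Pool.Agent.H16.EvoProof

/-! The statement with plain products from the one with bilinear maps. -/

set_option autoImplicit false

namespace Pool.H4.EVO

open Module

section
variable {V : Type} [AddCommGroup V] [Module ℂ V]

/-- The bilinear map. -/
def lin (m : V → V → V) (h : IsAlgebra m) : V →ₗ[ℂ] V →ₗ[ℂ] V :=
  LinearMap.mk₂ ℂ m (fun x y z => (h.1 x y z).1) (fun t x y => (h.2 t x y).1)
    (fun x y z => (h.1 y z x).2) (fun t x y => (h.2 t x y).2)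

theorem lin_apply (m : V → V → V) (h : IsAlgebra m) (x y : V) : lin m h x y = m x y := rfl

theorem isAlgebra_of (μ : V →ₗ[ℂ] V →ₗ[ℂ] V) : IsAlgebra fun x y => μ x y :=
  ⟨fun x y z => ⟨by simp, by simp⟩, fun t x y => ⟨by simp, by simp⟩⟩

theorem lin_of (μ : V →ₗ[ℂ] V →ₗ[ℂ] V) : lin (fun x y => μ x y) (isAlgebra_of μ) = μ := rfl

theorem basis_iff {n : ℕ} (b : Fin n → V) :
    (∀ v, ∃! c : Fin n → ℂ, v = ∑ i, c i • b i) ↔ ∃ B : Basis (Fin n) ℂ V, ⇑B = b := by
  constructor
  · intro h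
    have h1 : LinearIndependent ℂ b := by
      rw [Fintype.linearIndependent_iff]
      intro g hg i
      obtain ⟨c, _, hc⟩ := h 0
      have h2 := hc g hg.symm
      have h3 := hc (fun _ => 0) (by simp)
      rw [h2, ← h3]
    have h2 : ⊤ ≤ Submodule.span ℂ (Set.range b) := by
      intro v _
      obtain ⟨c, hc, _⟩ := h v
      have hc : v = ∑ i, c i • b i := hc
      rw [hc]
      exact Submodule.sum_mem _ fun i _ =>
        Submodule.smul_mem _ _ (Submodule.subset_span ⟨i, rfl⟩)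
    exact ⟨Basis.mk h1 h2, Basis.coe_mk h1 h2⟩
  · rintro ⟨B, rfl⟩ v
    refine ⟨fun i => B.repr v i, (B.sum_repr v).symm, fun c hc => ?_⟩
    have hc : v = ∑ i, c i • B i := hc
    funext i
    rw [hc, B.repr_sum_self]

theorem natural_iff (m : V → V → V) (h : IsAlgebra m) {n : ℕ} (b : Fin n → V) :
    IsNatural m b ↔
      ∃ B : Basis (Fin n) ℂ V, ⇑B = b ∧ Pool.Agent.H16.EvoProof.IsNaturalBasis (lin m h) B := by
  constructor
  · rintro ⟨h1, h2⟩
    obtain ⟨B, rfl⟩ := (basis_iff b).1 h1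
    exact ⟨B, rfl, h2⟩
  · rintro ⟨B, rfl, h2⟩
    exact ⟨(basis_iff _).2 ⟨B, rfl⟩, h2⟩

theorem evolution_iff (m : V → V → V) (h : IsAlgebra m) (n : ℕ) :
    IsEvolution m n ↔
      finrank ℂ V = n ∧ Pool.Agent.H16.EvoProof.IsEvolutionAlgebra (lin m h) := by
  constructor
  · rintro ⟨_, b, hb⟩
    obtain ⟨B, rfl, hB⟩ := (natural_iff m h b).1 hb
    exact ⟨by rw [Module.finrank_eq_card_basis B, Fintype.card_fin], n, B, hB⟩
  · rintro ⟨h1, k, B, hB⟩
    have h2 : k = n := by
      rw [← h1, Module.finrank_eq_card_basis B, Fintype.card_fin]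
    subst h2
    exact ⟨h, B, (natural_iff m h _).2 ⟨B, rfl, hB⟩⟩

theorem span_eq {n : ℕ} (B : Basis (Fin n) ℂ V) (s : Set (Fin n)) :
    (Submodule.span ℂ (B '' s) : Set V) =
      {v | ∃ c : Fin n → ℂ, (∀ i, i ∉ s → c i = 0) ∧ v = ∑ i, c i • B i} := by
  ext v
  constructor
  · intro hv
    have h1 : ((B.repr v).support : Set (Fin n)) ⊆ s := B.mem_span_image.1 hv
    refine ⟨fun i => B.repr v i, fun i hi => ?_, (B.sum_repr v).symm⟩
    by_contra h2
    exact hi (h1 (Finsupp.mem_support_iff.2 h2))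
  · rintro ⟨c, hc, rfl⟩
    refine Submodule.sum_mem _ fun i _ => ?_
    by_cases hi : i ∈ s
    · exact Submodule.smul_mem _ _ (Submodule.subset_span ⟨i, hi, rfl⟩)
    · rw [hc i hi, zero_smul]
      exact Submodule.zero_mem _

theorem conditionP_of (m : V → V → V) (h : IsAlgebra m) (hP : ConditionP m) :
    Pool.Agent.H16.EvoProof.ConditionP (lin m h) := by
  intro F hF
  obtain ⟨n, b, s, hb, hs⟩ := hP F
    ⟨F.zero_mem, fun x hx y hy => ⟨F.add_mem hx hy, hF x hx y hy⟩, fun t x hx => F.smul_mem t hx⟩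
  obtain ⟨B, rfl, hB⟩ := (natural_iff m h b).1 hb
  refine ⟨n, B, s, hB, SetLike.coe_injective ?_⟩
  rw [span_eq, hs]

theorem power_smul (m : V → V → V) (h : IsAlgebra m) (t : ℂ) {k : ℕ} {x : V}
    (hx : Power m k x) : Power m k (t • x) := by
  induction hx with
  | one x => exact .one _
  | mul i j x y _ hy ih1 _ =>
    rw [← (h.2 t x y).1]
    exact .mul i j _ _ ih1 hy
  | add k x y _ _ ih1 ih2 =>
    rw [smul_add]
    exact .add k _ _ ih1 ih2

theorem power_pos (m : V → V → V) {k : ℕ} {x : V} (hx : Power m k x) : 1 ≤ k := by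
  induction hx with
  | one x => exact le_rfl
  | mul i j x y _ _ h1 _ => omega
  | add k x y _ _ h1 _ => exact h1

theorem power_zero (m : V → V → V) (h : IsAlgebra m) (k : ℕ) : Power m (k + 1) 0 := by
  induction k with
  | zero => exact .one _
  | succ k ih =>
    have h1 : m 0 0 = 0 := by
      have := (h.2 0 0 0).1
      rwa [zero_smul, zero_smul] at this
    have h2 := Power.mul (m := m) (k + 1) 1 0 0 ih (.one _)
    rwa [h1] at h2

theorem power_iff (m : V → V → V) (h : IsAlgebra m) (k : ℕ) (hk : 1 ≤ k) (x : V) :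
    Power m k x ↔ x ∈ Pool.Agent.H16.EvoProof.power (lin m h) k := by
  constructor
  · intro hx
    clear hk
    induction hx with
    | one x => rw [Pool.Agent.H16.EvoProof.power_one]; trivial
    | mul i j x y h1 h2 ih1 ih2 =>
      exact Pool.Agent.H16.EvoProof.mul_mem_power (lin m h) (power_pos m h1) (power_pos m h2)
        ih1 ih2
    | add k x y _ _ ih1 ih2 => exact Submodule.add_mem _ ih1 ih2
  · induction k using Nat.strong_induction_on generalizing x with
    | _ k ih =>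
      by_cases h1 : k = 1
      · subst h1
        exact fun _ => .one x
      · intro hx
        obtain ⟨l, rfl⟩ := Nat.exists_eq_add_of_le' hk
        let Q : Submodule ℂ V :=
          { carrier := {x | Power m (l + 1) x}
            add_mem' := fun hx hy => .add _ _ _ hx hy
            zero_mem' := power_zero m h l
            smul_mem' := fun t x hx => power_smul m h t hx }
        have h2 : Pool.Agent.H16.EvoProof.power (lin m h) (l + 1) ≤ Q := by
          rw [Pool.Agent.H16.EvoProof.power_le_iff _ (by omega)]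
          intro a b ha hb hab x hx y hy
          have h3 := Power.mul (m := m) a b x y (ih a (by omega) ha x hx) (ih b (by omega) hb y hy)
          rw [hab] at h3
          exact h3
        exact h2 hx

theorem zeroPowers_eq (m : V → V → V) (h : IsAlgebra m) :
    zeroPowers m = {k | 1 ≤ k ∧ Pool.Agent.H16.EvoProof.power (lin m h) k = ⊥} := by
  ext k
  refine and_congr_right fun hk => ?_
  rw [Submodule.eq_bot_iff]
  exact forall_congr' fun x => by rw [power_iff m h k hk]

theorem nilpotent_iff (m : V → V → V) (h : IsAlgebra m) :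
    IsNilpotent m ↔ Pool.Agent.H16.EvoProof.IsNilpotentAlg (lin m h) := by
  unfold IsNilpotent
  rw [zeroPowers_eq m h]
  exact Iff.rfl

theorem index_eq (m : V → V → V) (h : IsAlgebra m) :
    index m = Pool.Agent.H16.EvoProof.nilIndex (lin m h) := by
  unfold index
  rw [zeroPowers_eq m h]
  rfl

theorem memZN_iff (m : V → V → V) (h : IsAlgebra m) (s : ℕ) :
    MemZN m s ↔ Pool.Agent.H16.EvoProof.MemZN s (lin m h) := by
  constructor
  · rintro ⟨h1, h2, h3⟩
    obtain ⟨h4, h5⟩ := (evolution_iff m h s).1 h1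
    refine ⟨h4, h5, (nilpotent_iff m h).1 h2, ?_⟩
    intro U _ _ ν g1 g2 g3
    have g := h3 U (fun x y => ν x y) ((evolution_iff _ (isAlgebra_of ν) s).2 ⟨g1, g2⟩)
      ((nilpotent_iff _ (isAlgebra_of ν)).2 g3)
    rwa [index_eq _ (isAlgebra_of ν), index_eq m h] at g
  · rintro ⟨h1, h2, h3, h4⟩
    refine ⟨(evolution_iff m h s).2 ⟨h1, h2⟩, (nilpotent_iff m h).2 h3, ?_⟩
    intro U _ _ u g1 g2
    obtain ⟨g3, g4⟩ := (evolution_iff u g1.1 s).1 g1
    rw [index_eq u g1.1, index_eq m h]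
    exact h4 U (lin u g1.1) g3 g4 ((nilpotent_iff u g1.1).1 g2)

variable {W : Type} [AddCommGroup W] [Module ℂ W]

theorem iso_iff (m : V → V → V) (u : W → W → W) :
    Iso m u ↔ ∃ φ : V ≃ₗ[ℂ] W, ∀ x y, φ (m x y) = u (φ x) (φ y) := by
  constructor
  · rintro ⟨f, h1, h2, h3⟩
    let g : V →ₗ[ℂ] W :=
      { toFun := f
        map_add' := fun x y => (h2 x y).1
        map_smul' := h3 }
    exact ⟨LinearEquiv.ofBijective g h1, fun x y => (h2 x y).2⟩
  · rintro ⟨φ, h⟩
    exact ⟨φ, φ.bijective, fun x y => ⟨φ.map_add x y, h x y⟩, fun t x => φ.map_smul t x⟩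

theorem iso_symm_trans {X : Type} [AddCommGroup X] [Module ℂ X] {m : V → V → V}
    {u : W → W → W} {v : X → X → X} (h1 : Iso m u) (h2 : Iso m v) : Iso u v := by
  rw [iso_iff] at *
  obtain ⟨f, hf⟩ := h1
  obtain ⟨g, hg⟩ := h2
  refine ⟨f.symm.trans g, fun x y => ?_⟩
  have h3 : f.symm (u x y) = m (f.symm x) (f.symm y) := by
    apply f.injective
    rw [f.apply_symm_apply, hf, f.apply_symm_apply, f.apply_symm_apply]
  show g (f.symm (u x y)) = v (g (f.symm x)) (g (f.symm y))
  rw [h3, hg]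

end

theorem main (n : ℕ) : Complete n ∧ Distinct n := by
  obtain ⟨h1, h2, h3⟩ := Pool.Agent.H16.EvoProof.main n
  refine ⟨?_, ?_⟩
  · intro V _ _ m hev hnil hP
    obtain ⟨e1, e2⟩ := (evolution_iff m hev.1 n).1 hev
    have hfd : FiniteDimensional ℂ V := Pool.Agent.H16.EvoProof.fd_of_evolution _ e2
    rcases h1 V (lin m hev.1) e1 e2 (conditionP_of m hev.1 hP)
      (fun h => hnil ((nilpotent_iff m hev.1).2 h)) with h | ⟨s, hs, hs', U, i1, i2, ν, hν, hiso⟩
    · exact Or.inl ((iso_iff _ _).2 h)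
    · refine Or.inr ⟨s, U, i1, i2, fun x y => ν x y, hs, hs', ?_, (iso_iff _ _).2 hiso⟩
      exact (memZN_iff _ (isAlgebra_of ν) s).2 hν
  · intro V W X _ _ _ _ _ _ m u v s t hu
    obtain ⟨a1, a2, a3, a4⟩ := hu
    refine ⟨fun hf => ?_, fun hv => ?_⟩
    · refine h2 s W (lin u a3.1.1) a1 a2 ((memZN_iff _ _ s).1 a3) ?_
      exact (iso_iff _ _).1 (iso_symm_trans hf a4)
    · obtain ⟨b1, b2, b3, b4⟩ := hv
      obtain ⟨c1, c2⟩ := h3 s t W X (lin u a3.1.1) (lin v b3.1.1) a1 a2 b1 b2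
        ((memZN_iff _ _ s).1 a3) ((memZN_iff _ _ t).1 b3)
        ((iso_iff _ _).1 (iso_symm_trans a4 b4))
      exact ⟨c1, (iso_iff _ _).2 c2⟩

end Pool.H4.EVO
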